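import Mathlib

/-!
# Curves of small genus in `SG_n` : definitions
-/

namespace H9.BraidCurve

open Polynomial IntermediateField

/-- The monic polynomial `P_z(λ) = λ^n + z_1 λ^(n-1) + ... + z_n`; the coordinate `z_(i+1)` of the
problem is `z i`, `i : Fin n`, and it is the coefficient of `λ^(n-1-i)`. -/
noncomputable def braidPoly {n : ℕ} (z : Fin n → ℂ) : ℂ[X] :=
  X ^ n + ∑ i : Fin n, C (z i) * X ^ (n - 1 - (i : ℕ))

/-- `SG_n = {z ∈ ℂ^n : z_1 = 0, d_n(z) = 1}`, where `d_n(z)` is the discriminant of `P_z`. -/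
def SG (n : ℕ) : Set (Fin n → ℂ) :=
  {z | (∀ i : Fin n, (i : ℕ) = 0 → z i = 0) ∧ (braidPoly z).discr = 1}

/-- `R` is the coordinate ring of a connected non-singular affine algebraic curve over `ℂ`:
a finitely generated `ℂ`-algebra which is a Dedekind domain (a domain which is regular of
dimension `1`), and not a field. -/
structure IsSmoothAffineCurve (R : Type) [CommRing R] [Algebra ℂ R] : Prop where
  isDomain : IsDomain R
  finiteType : Algebra.FiniteType ℂ R
  dedekind : IsDedekindDomain R
  notField : ¬ IsField R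

/-- For a function field `K / ℂ` and `x : K`, the Riemann-Roch space `L(m · (x)_∞)`, where
`(x)_∞` is the divisor of poles of `x`: the set of all `f` such that, at every place of `K / ℂ`
(i.e. every valuation ring `O` of `K` that contains `ℂ`), `f` is regular if `x` is regular, and
`f / x ^ m` is regular if `x` has a pole. -/
def poleSpace (K : Type) [Field K] [Algebra ℂ K] (x : K) (m : ℕ) : Submodule ℂ K where
  carrier := {f | ∀ O : ValuationSubring K, (∀ c : ℂ, algebraMap ℂ K c ∈ O) →
    (x ∈ O → f ∈ O) ∧ (x ∉ O → f / x ^ m ∈ O)}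
  add_mem' := by
    intro a b ha hb O hO
    refine ⟨fun h => O.add_mem _ _ ((ha O hO).1 h) ((hb O hO).1 h), fun h => ?_⟩
    rw [add_div]
    exact O.add_mem _ _ ((ha O hO).2 h) ((hb O hO).2 h)
  zero_mem' := by
    intro O hO
    refine ⟨fun _ => O.zero_mem, fun _ => ?_⟩
    rw [zero_div]
    exact O.zero_mem
  smul_mem' := by
    intro c a ha O hO
    rw [Algebra.smul_def]
    refine ⟨fun h => O.mul_mem _ _ (hO c) ((ha O hO).1 h), fun h => ?_⟩
    rw [mul_div_assoc]
    exact O.mul_mem _ _ (hO c) ((ha O hO).2 h)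

/-- The function field `K / ℂ` has genus at most `g`.  By the theorems of Riemann and
Riemann-Roch, for every `x ∈ K` transcendental over `ℂ` the divisor `m · (x)_∞` has degree
`m · [K : ℂ(x)]` and, for all large `m`,
`dim L(m · (x)_∞) = m · [K : ℂ(x)] + 1 - genus(K)`;
so the genus is at most `g` iff `m · [K : ℂ(x)] + 1 ≤ dim L(m · (x)_∞) + g` for all large `m`, for
some (equivalently, for every) such `x`. -/
def GenusAtMost (K : Type) [Field K] [Algebra ℂ K] (g : ℕ) : Prop :=
  ∃ x : K, Transcendental ℂ x ∧ FiniteDimensional ℂ⟮x⟯ K ∧ ∃ M : ℕ, ∀ m : ℕ, M ≤ m →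
    ((m * Module.finrank ℂ⟮x⟯ K + 1 : ℕ) : Cardinal) ≤ Module.rank ℂ (poleSpace K x m) + (g : ℕ)

end H9.BraidCurve
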