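import Pool.Agent.H9.BraidCurve.Defs

namespace H9.BraidCurve

open Polynomial

/-- the polynomial `X^(2m) + a X^m + b` -/
noncomputable def tri (m : ℕ) (a b : ℂ) : ℂ[X] := X ^ (2 * m) + C a * X ^ m + C b

lemma tri_natDegree {m : ℕ} (hm : 1 ≤ m) (a b : ℂ) : (tri m a b).natDegree = 2 * m := by
  unfold tri
  have h1 : (C a * X ^ m + C b : ℂ[X]).natDegree < 2 * m := by
    have : (C a * X ^ m + C b : ℂ[X]).natDegree ≤ m := by
      compute_degree
    omega
  rw [add_assoc]
  have h2 : (X ^ (2 * m) : ℂ[X]).natDegree = 2 * m := natDegree_X_pow _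
  rw [natDegree_add_eq_left_of_natDegree_lt (by rw [h2]; exact h1), h2]

lemma tri_monic {m : ℕ} (hm : 1 ≤ m) (a b : ℂ) : (tri m a b).Monic := by
  unfold tri
  rw [add_assoc]
  apply monic_X_pow_add
  have : (C a * X ^ m + C b : ℂ[X]).natDegree ≤ m := by
    compute_degree
  have h3 : (C a * X ^ m + C b : ℂ[X]).degree ≤ (m : ℕ) := natDegree_le_iff_degree_le.mp this
  refine lt_of_le_of_lt h3 ?_
  exact_mod_cast (by omega : m < 2 * m)

lemma tri_coeff_zero {m : ℕ} (hm : 1 ≤ m) (a b : ℂ) : (tri m a b).coeff 0 = b := by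
  unfold tri
  rw [coeff_zero_eq_eval_zero]
  simp [zero_pow (by omega : 2 * m ≠ 0), zero_pow (by omega : m ≠ 0)]

/-- `G = 2 X^m + a` -/
noncomputable def gg (m : ℕ) (a : ℂ) : ℂ[X] := C 2 * X ^ m + C a

lemma gg_natDegree_le (m : ℕ) (a : ℂ) : (gg m a).natDegree ≤ m := by
  unfold gg
  compute_degree

lemma gg_coeff {m : ℕ} (hm : 1 ≤ m) (a : ℂ) : (gg m a).coeff m = 2 := by
  unfold gg
  rw [coeff_add, coeff_C_mul, coeff_X_pow, coeff_C, if_pos rfl, if_neg (by omega : m ≠ 0)]
  ring

lemma gg_natDegree {m : ℕ} (hm : 1 ≤ m) (a : ℂ) : (gg m a).natDegree = m := by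
  apply le_antisymm (gg_natDegree_le m a)
  apply le_natDegree_of_ne_zero
  rw [gg_coeff hm]
  norm_num

lemma tri_deriv {m : ℕ} (hm : 1 ≤ m) (a b : ℂ) :
    derivative (tri m a b) = C (m : ℂ) * (X ^ (m - 1) * gg m a) := by
  obtain ⟨k, rfl⟩ := Nat.exists_eq_add_of_le' hm
  unfold tri gg
  simp only [derivative_add, derivative_X_pow, derivative_mul, derivative_C, zero_mul, zero_add,
    add_zero, Nat.add_sub_cancel]
  have : 2 * (k + 1) - 1 = k + (k + 1) := by omega
  rw [this, pow_add]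
  have e1 : (C (((2 * (k + 1) : ℕ)) : ℂ) : ℂ[X]) = C ((k + 1 : ℕ) : ℂ) * C 2 := by
    rw [← C_mul]; congr 1; push_cast; ring
  rw [e1]
  ring

lemma tri_eq {m : ℕ} (a b : ℂ) :
    tri m a b = C (b - a ^ 2 / 4) + gg m a * (C (1 / 2) * X ^ m + C (a / 4)) := by
  unfold tri gg
  have e2 : (C (b - a ^ 2 / 4) : ℂ[X]) = C b - C (a / 4) * C a := by
    rw [← C_mul, ← C_sub]; congr 1; ring
  have e3 : (C 2 : ℂ[X]) * C (1 / 2) = 1 := by
    rw [← C_mul, ← C_1]; congr 1; norm_num
  have e4 : (C a : ℂ[X]) = C 2 * C (a / 4) + C a * C (1 / 2) := by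
    rw [← C_mul, ← C_mul, ← C_add]; congr 1; ring
  rw [e2]
  calc X ^ (2 * m) + C a * X ^ m + C b
      = (C 2 * C (1 / 2)) * (X ^ m * X ^ m) + (C 2 * C (a / 4) + C a * C (1 / 2)) * X ^ m + C b := by
        rw [← e4, e3, ← pow_add, one_mul, two_mul]
    _ = _ := by ring

lemma res_tri_gg {m : ℕ} (hm : 1 ≤ m) (a b : ℂ) :
    resultant (tri m a b) (gg m a) (2 * m) m = (4 * b - a ^ 2) ^ m := by
  rw [resultant_comm]
  have h : ((-1 : ℂ)) ^ (2 * m * m) = 1 := by
    rw [mul_assoc, pow_mul]; norm_num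
  rw [h, one_mul, tri_eq]
  rw [resultant_add_mul_right]
  · rw [resultant_C_right, gg_coeff hm, mul_comm 2 m, mul_comm m 2, pow_mul, ← mul_pow]
    congr 1
    ring
  · have : (C (1 / 2) * X ^ m + C (a / 4) : ℂ[X]).natDegree ≤ m := by
      compute_degree
    omega
  · exact gg_natDegree_le m a

lemma res_tri_deriv {m : ℕ} (hm : 1 ≤ m) (a b : ℂ) :
    resultant (tri m a b) (derivative (tri m a b)) (2 * m) (2 * m - 1)
      = (m : ℂ) ^ (2 * m) * b ^ (m - 1) * (4 * b - a ^ 2) ^ m := by
  rw [tri_deriv hm, resultant_C_mul_right]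
  have h1 : (X ^ (m - 1) : ℂ[X]).natDegree = m - 1 := natDegree_X_pow _
  have h2 := resultant_mul_right (tri m a b) (X ^ (m - 1)) (gg m a) (2 * m)
    (tri_natDegree hm a b).le
  rw [gg_natDegree hm, h1, (by omega : m - 1 + m = 2 * m - 1)] at h2
  rw [h2, res_tri_gg hm, resultant_X_pow_right _ _ _ (tri_natDegree hm a b).le,
    tri_coeff_zero hm]
  have h : ((-1 : ℂ)) ^ (2 * m * (m - 1)) = 1 := by
    rw [mul_assoc, pow_mul]; norm_num
  rw [h]
  ring

/-- the discriminant, even degree -/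
lemma discr_even {m : ℕ} (hm : 1 ≤ m) : ∃ κ : ℂ, κ ≠ 0 ∧ ∀ a b : ℂ,
    (tri m a b).discr = κ * b ^ (m - 1) * (4 * b - a ^ 2) ^ m := by
  refine ⟨(-1) ^ (2 * m * (2 * m - 1) / 2) * (m : ℂ) ^ (2 * m), ?_, fun a b => ?_⟩
  · apply mul_ne_zero
    · exact pow_ne_zero _ (by norm_num)
    · exact pow_ne_zero _ (by exact_mod_cast (by omega : m ≠ 0))
  · have hd : 0 < (tri m a b).degree := by
      rw [← natDegree_pos_iff_degree_pos, tri_natDegree hm]; omega
    have h := resultant_deriv hd
    rw [tri_natDegree hm, res_tri_deriv hm, (tri_monic hm a b).leadingCoeff, mul_one] at h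
    have h2 : ((-1 : ℂ) ^ (2 * m * (2 * m - 1) / 2)) * (-1) ^ (2 * m * (2 * m - 1) / 2) = 1 := by
      rw [← mul_pow]; norm_num
    calc (tri m a b).discr
        = ((-1 : ℂ) ^ (2 * m * (2 * m - 1) / 2) * (-1) ^ (2 * m * (2 * m - 1) / 2))
            * (tri m a b).discr := by rw [h2, one_mul]
      _ = (-1 : ℂ) ^ (2 * m * (2 * m - 1) / 2) *
            ((-1) ^ (2 * m * (2 * m - 1) / 2) * (tri m a b).discr) := by ring
      _ = _ := by rw [← h]; ring

/-- the discriminant, odd degree -/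
lemma discr_odd {m : ℕ} (hm : 1 ≤ m) : ∃ κ : ℂ, κ ≠ 0 ∧ ∀ a b : ℂ,
    (X * tri m a b).discr = κ * b ^ (m + 1) * (4 * b - a ^ 2) ^ m := by
  refine ⟨(-1) ^ ((2 * m + 1) * (2 * m) / 2) * (m : ℂ) ^ (2 * m), ?_, fun a b => ?_⟩
  · apply mul_ne_zero
    · exact pow_ne_zero _ (by norm_num)
    · exact pow_ne_zero _ (by exact_mod_cast (by omega : m ≠ 0))
  · have hT := tri_monic hm a b
    have hmon : (X * tri m a b).Monic := monic_X.mul hT
    have hdeg : (X * tri m a b).natDegree = 2 * m + 1 := by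
      rw [natDegree_X_mul hT.ne_zero, tri_natDegree hm]
    have hd : 0 < (X * tri m a b).degree := by
      rw [← natDegree_pos_iff_degree_pos, hdeg]; omega
    have h := resultant_deriv hd
    rw [hdeg, hmon.leadingCoeff, mul_one, Nat.add_sub_cancel] at h
    -- compute the resultant
    have hP' : derivative (X * tri m a b) = tri m a b + X * derivative (tri m a b) := by
      rw [derivative_mul, derivative_X, one_mul]
    have hdd : (derivative (tri m a b)).natDegree ≤ 2 * m - 1 := by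
      have := natDegree_derivative_le (tri m a b)
      rwa [tri_natDegree hm] at this
    have hdP : (derivative (X * tri m a b)).natDegree ≤ 2 * m := by
      have := natDegree_derivative_le (X * tri m a b)
      rwa [hdeg, Nat.add_sub_cancel] at this
    have e1 := resultant_mul_left X (tri m a b) (derivative (X * tri m a b)) (2 * m) hdP
    rw [natDegree_X, tri_natDegree hm, (by omega : 1 + 2 * m = 2 * m + 1)] at e1
    have e2 : resultant X (derivative (X * tri m a b)) 1 (2 * m) = b := by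
      have := resultant_X_sub_C_left (derivative (X * tri m a b)) (2 * m) 0 hdP
      rw [C_0, sub_zero] at this
      rw [this, hP', eval_add, eval_mul, eval_X, zero_mul, add_zero, ← coeff_zero_eq_eval_zero,
        tri_coeff_zero hm]
    have e3 : resultant (tri m a b) (derivative (X * tri m a b)) (2 * m) (2 * m)
        = resultant (tri m a b) (X * derivative (tri m a b)) (2 * m) (2 * m) := by
      rw [hP', add_comm]
      have := resultant_add_mul_right (tri m a b) (X * derivative (tri m a b)) 1 (2 * m) (2 * m)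
        (by simp) (tri_natDegree hm a b).le
      rw [mul_one] at this
      exact this
    have hTd : (derivative (tri m a b)).natDegree = 2 * m - 1 := by
      rw [tri_deriv hm, natDegree_C_mul (by exact_mod_cast (by omega : m ≠ 0)),
        natDegree_mul (pow_ne_zero _ X_ne_zero) (fun h0 => by
          have := gg_coeff hm a; rw [h0] at this; simp at this), natDegree_X_pow, gg_natDegree hm]
      omega
    have e4 : resultant (tri m a b) (X * derivative (tri m a b)) (2 * m) (2 * m)
        = b * resultant (tri m a b) (derivative (tri m a b)) (2 * m) (2 * m - 1) := by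
      have := resultant_mul_right (tri m a b) X (derivative (tri m a b)) (2 * m)
        (tri_natDegree hm a b).le
      rw [natDegree_X, hTd, (by omega : 1 + (2 * m - 1) = 2 * m)] at this
      rw [this]
      congr 1
      have h5 := resultant_X_sub_C_right (tri m a b) (2 * m) 0 (tri_natDegree hm a b).le
      rw [C_0, sub_zero, ← coeff_zero_eq_eval_zero, tri_coeff_zero hm] at h5
      rw [h5, pow_mul]
      norm_num
    rw [e1, e2, e3, e4, res_tri_deriv hm] at h
    have h2 : ((-1 : ℂ) ^ ((2 * m + 1) * (2 * m) / 2)) * (-1) ^ ((2 * m + 1) * (2 * m) / 2) = 1 := by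
      rw [← mul_pow]; norm_num
    obtain ⟨k, rfl⟩ := Nat.exists_eq_add_of_le' hm
    calc (X * tri (k + 1) a b).discr
        = ((-1 : ℂ) ^ ((2 * (k + 1) + 1) * (2 * (k + 1)) / 2)
            * (-1) ^ ((2 * (k + 1) + 1) * (2 * (k + 1)) / 2))
            * (X * tri (k + 1) a b).discr := by rw [h2, one_mul]
      _ = (-1 : ℂ) ^ ((2 * (k + 1) + 1) * (2 * (k + 1)) / 2) *
            ((-1) ^ ((2 * (k + 1) + 1) * (2 * (k + 1)) / 2) * (X * tri (k + 1) a b).discr) := by ring
      _ = _ := by rw [← h, Nat.add_sub_cancel]; ring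

end H9.BraidCurve
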