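import Pool.Agent.H9.BraidCurve.Defs

namespace H9.BraidCurve

open Polynomial IntermediateField

variable {K : Type} [Field K] [Algebra ℂ K]

omit [Algebra ℂ K] in
lemma mem_of_sq_mem (O : ValuationSubring K) {y : K} (h : y ^ 2 ∈ O) : y ∈ O := by
  rcases O.mem_or_inv_mem y with h1 | h1
  · exact h1
  · by_cases hy : y = 0
    · rw [hy]; exact O.zero_mem
    · have : y = y ^ 2 * y⁻¹ := by field_simp
      rw [this]
      exact O.mul_mem _ _ h h1

omit [Algebra ℂ K] in
lemma inv_mem_of_notMem (O : ValuationSubring K) {x : K} (h : x ∉ O) : x⁻¹ ∈ O := by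
  rcases O.mem_or_inv_mem x with h1 | h1
  · exact absurd h1 h
  · exact h1

lemma pow_mem_poleSpace (x : K) {i m : ℕ} (h : i ≤ m) : x ^ i ∈ poleSpace K x m := by
  intro O hO
  refine ⟨fun hx => pow_mem hx i, fun hx => ?_⟩
  have hx' := inv_mem_of_notMem O hx
  have hx0 : x ≠ 0 := by rintro rfl; exact hx O.zero_mem
  obtain ⟨k, rfl⟩ := Nat.exists_eq_add_of_le h
  have : x ^ i / x ^ (i + k) = (x⁻¹) ^ k := by
    rw [pow_add, inv_pow]
    field_simp
  rw [this]
  exact pow_mem hx' k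

lemma pow_mul_mem_poleSpace {x v : K} {N : ℕ} (hv : v ^ 2 = 1 + x ^ (2 * N)) {j m : ℕ}
    (h : j + N ≤ m) : x ^ j * v ∈ poleSpace K x m := by
  intro O hO
  refine ⟨fun hx => ?_, fun hx => ?_⟩
  · refine O.mul_mem _ _ (pow_mem hx j) (mem_of_sq_mem O ?_)
    rw [hv]
    exact O.add_mem _ _ O.one_mem (pow_mem hx _)
  · have hx' := inv_mem_of_notMem O hx
    have hx0 : x ≠ 0 := by rintro rfl; exact hx O.zero_mem
    obtain ⟨k, rfl⟩ := Nat.exists_eq_add_of_le h
    have : x ^ j * v / x ^ (j + N + k) = (v / x ^ N) * (x⁻¹) ^ k := by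
      rw [pow_add, pow_add, inv_pow]
      field_simp
    rw [this]
    refine O.mul_mem _ _ (mem_of_sq_mem O ?_) (pow_mem hx' k)
    have e : (v / x ^ N) ^ 2 = (x⁻¹) ^ (2 * N) + 1 := by
      rw [div_pow, hv, ← pow_mul, mul_comm N 2, inv_pow]
      field_simp
    rw [e]
    exact O.add_mem _ _ (pow_mem hx' _) O.one_mem

/-- `(p, q) ↦ p(x) + q(x) v` -/
noncomputable def phi (x v : K) : (ℂ[X] × ℂ[X]) →ₗ[ℂ] K :=
  ((aeval x).toLinearMap.comp (LinearMap.fst ℂ ℂ[X] ℂ[X])) +
    (LinearMap.mulRight ℂ v).comp ((aeval x).toLinearMap.comp (LinearMap.snd ℂ ℂ[X] ℂ[X]))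

lemma phi_apply (x v : K) (p q : ℂ[X]) : phi x v (p, q) = aeval x p + aeval x q * v := rfl

lemma aeval_mem_poleSpace (x : K) {m : ℕ} {p : ℂ[X]} (hp : p ∈ degreeLT ℂ (m + 1)) :
    aeval x p ∈ poleSpace K x m := by
  rw [aeval_eq_sum_range]
  refine Submodule.sum_mem _ (fun i hi => Submodule.smul_mem _ _ (pow_mem_poleSpace x ?_))
  rw [mem_degreeLT] at hp
  have : p.natDegree < m + 1 := by
    by_cases h0 : p = 0
    · rw [h0]; simp
    · exact (natDegree_lt_iff_degree_lt h0).mpr hp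
  have := Finset.mem_range.mp hi
  omega

lemma aeval_mul_mem_poleSpace {x v : K} {N : ℕ} (hv : v ^ 2 = 1 + x ^ (2 * N)) {k : ℕ}
    {p : ℂ[X]} (hp : p ∈ degreeLT ℂ (k + 1)) :
    aeval x p * v ∈ poleSpace K x (k + N) := by
  rw [aeval_eq_sum_range, Finset.sum_mul]
  refine Submodule.sum_mem _ (fun i hi => ?_)
  rw [smul_mul_assoc]
  refine Submodule.smul_mem _ _ (pow_mul_mem_poleSpace hv ?_)
  rw [mem_degreeLT] at hp
  have : p.natDegree < k + 1 := by
    by_cases h0 : p = 0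
    · rw [h0]; simp
    · exact (natDegree_lt_iff_degree_lt h0).mpr hp
  have := Finset.mem_range.mp hi
  omega

lemma rank_degreeLT (n : ℕ) : Module.rank ℂ (degreeLT ℂ n) = n := by
  rw [(degreeLTEquiv ℂ n).rank_eq, rank_fin_fun]

lemma aeval_mem_adjoin (x : K) (p : ℂ[X]) : aeval x p ∈ ℂ⟮x⟯ := by
  exact algebra_adjoin_le_adjoin ℂ _ (aeval_mem_adjoin_singleton ℂ x)

theorem genus_le {x v : K} {N : ℕ} (hN : 1 ≤ N) (hx : Transcendental ℂ x)
    (hv : v ^ 2 = 1 + x ^ (2 * N))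
    (hspan : ∀ k : K, ∃ p q : ℂ⟮x⟯, k = (p : K) + (q : K) * v) : GenusAtMost K (N - 1) := by
  classical
  have hinj : Function.Injective (aeval x : ℂ[X] →ₐ[ℂ] K) :=
    transcendental_iff_injective.mp hx
  have htop : Submodule.span ℂ⟮x⟯ ({1, v} : Set K) = ⊤ := by
    rw [eq_top_iff]
    rintro k -
    obtain ⟨p, q, rfl⟩ := hspan k
    rw [Submodule.mem_span_pair]
    refine ⟨p, q, ?_⟩
    rw [Algebra.smul_def, Algebra.smul_def, mul_one]
    rfl
  have hfin : FiniteDimensional ℂ⟮x⟯ K := ⟨⟨({1, v} : Finset K), by simpa using htop⟩⟩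
  have hle : Module.finrank ℂ⟮x⟯ K ≤ 2 := by
    have h1 := finrank_span_finset_le_card (R := ℂ⟮x⟯) (M := K) ({1, v} : Finset K)
    have h2 : (({1, v} : Finset K) : Set K) = {1, v} := by simp
    rw [h2] at h1
    change Module.finrank ℂ⟮x⟯ (Submodule.span ℂ⟮x⟯ ({1, v} : Set K)) ≤ _ at h1
    rw [htop, finrank_top] at h1
    exact h1.trans Finset.card_le_two
  refine ⟨x, hx, hfin, N, fun m hm => ?_⟩
  by_cases hvF : v ∈ ℂ⟮x⟯
  · -- then `K = ℂ(x)`
    have h1 : Module.finrank ℂ⟮x⟯ K = 1 := by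
      rw [finrank_eq_one_iff_of_nonzero' (1 : K) one_ne_zero]
      intro w
      obtain ⟨p, q, rfl⟩ := hspan w
      refine ⟨p + q * ⟨v, hvF⟩, ?_⟩
      rw [Algebra.smul_def, mul_one]
      rfl
    rw [h1, mul_one]
    have h2 : ((m + 1 : ℕ) : Cardinal) ≤ Module.rank ℂ (poleSpace K x m) := by
      rw [← rank_degreeLT (m + 1)]
      let f : degreeLT ℂ (m + 1) →ₗ[ℂ] poleSpace K x m :=
        ((aeval x).toLinearMap.comp (degreeLT ℂ (m + 1)).subtype).codRestrict _
          (fun p => aeval_mem_poleSpace x p.2)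
      refine LinearMap.rank_le_of_injective f ?_
      intro p q hpq
      have h3 : aeval x (p : ℂ[X]) = aeval x (q : ℂ[X]) := congrArg Subtype.val hpq
      exact Subtype.ext (hinj h3)
    exact h2.trans (self_le_add_right _ _)
  · obtain ⟨k, rfl⟩ := Nat.exists_eq_add_of_le' hm
    have h2 : (((k + N + 1) + (k + 1) : ℕ) : Cardinal) ≤
        Module.rank ℂ (poleSpace K x (k + N)) := by
      have e : (((k + N + 1) + (k + 1) : ℕ) : Cardinal) =
          Module.rank ℂ (degreeLT ℂ (k + N + 1) × degreeLT ℂ (k + 1)) := by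
        rw [rank_prod', rank_degreeLT, rank_degreeLT]
        push_cast
        rfl
      rw [e]
      let f : (degreeLT ℂ (k + N + 1) × degreeLT ℂ (k + 1)) →ₗ[ℂ] poleSpace K x (k + N) :=
        ((phi x v).comp ((degreeLT ℂ (k + N + 1)).subtype.prodMap
          (degreeLT ℂ (k + 1)).subtype)).codRestrict _ (fun p => by
            exact Submodule.add_mem _ (aeval_mem_poleSpace x p.1.2)
              (aeval_mul_mem_poleSpace hv p.2.2))
      refine LinearMap.rank_le_of_injective f ?_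
      rw [← LinearMap.ker_eq_bot, LinearMap.ker_eq_bot']
      rintro ⟨p, q⟩ hpq
      have h3 : aeval x (p : ℂ[X]) + aeval x (q : ℂ[X]) * v = 0 := congrArg Subtype.val hpq
      have hq : aeval x (q : ℂ[X]) = 0 := by
        by_contra hq
        apply hvF
        have : v = - (aeval x (p : ℂ[X])) / (aeval x (q : ℂ[X])) := by
          rw [eq_div_iff hq]
          linear_combination h3
        rw [this]
        exact div_mem (neg_mem (aeval_mem_adjoin x _)) (aeval_mem_adjoin x _)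
      have hp : aeval x (p : ℂ[X]) = 0 := by
        rw [hq, zero_mul, add_zero] at h3; exact h3
      have hq' : (q : ℂ[X]) = 0 := hinj (by rw [hq, map_zero])
      have hp' : (p : ℂ[X]) = 0 := hinj (by rw [hp, map_zero])
      exact Prod.ext (Subtype.ext hp') (Subtype.ext hq')
    calc (((k + N) * Module.finrank ℂ⟮x⟯ K + 1 : ℕ) : Cardinal)
        ≤ (((k + N + 1) + (k + 1) + (N - 1) : ℕ) : Cardinal) := by
          have : (k + N) * Module.finrank ℂ⟮x⟯ K ≤ (k + N) * 2 := Nat.mul_le_mul_left _ hle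
          exact_mod_cast (by omega :
            (k + N) * Module.finrank ℂ⟮x⟯ K + 1 ≤ (k + N + 1) + (k + 1) + (N - 1))
      _ = (((k + N + 1) + (k + 1) : ℕ) : Cardinal) + ((N - 1 : ℕ) : Cardinal) := by
          push_cast; rfl
      _ ≤ _ := by gcongr

end H9.BraidCurve
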