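import Pool.Agent.H9.BraidCurve.Proof

namespace H9.BraidCurve

open Polynomial IntermediateField

theorem main_mε {m ε : ℕ} (hm : 2 ≤ m) (hε : ε ≤ 1) (h4 : 4 < 2 * m + ε) :
    ∃ (R K : Type) (_ : CommRing R) (_ : Field K) (_ : Algebra ℂ R) (_ : Algebra ℂ K)
      (_ : Algebra R K) (_ : IsScalarTower ℂ R K) (_ : IsFractionRing R K),
      IsSmoothAffineCurve R ∧
      (∃ g : ℕ, 2 * g < (2 * m + ε - 1) * (2 * m + ε - 2) ∧ GenusAtMost K g) ∧
      ∃ z : Fin (2 * m + ε) → R, (∀ φ : R →ₐ[ℂ] ℂ, (fun i => φ (z i)) ∈ SG (2 * m + ε)) ∧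
        ∃ φ ψ : R →ₐ[ℂ] ℂ, (fun i => φ (z i)) ≠ (fun i => ψ (z i)) := by
  obtain ⟨κ, hκ, hdisc⟩ := discr_gen (m := m) (ε := ε) (by omega) hε
  set q := m - 1 + 2 * ε with hq
  set N := m + q with hN
  -- constants
  obtain ⟨β, hβ⟩ := IsAlgClosed.exists_pow_nat_eq (1 / (κ * (-4) ^ m) : ℂ) (n := N) (by omega)
  have hβ0 : β ≠ 0 := by
    rintro rfl
    rw [zero_pow (by omega)] at hβ
    exact (one_div_ne_zero (mul_ne_zero hκ (pow_ne_zero _ (by norm_num)))) hβ.symm
  have hβ' : κ * (-4) ^ m * β ^ N = 1 := by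
    rw [hβ]
    field_simp
  obtain ⟨α, hα⟩ := IsAlgClosed.exists_pow_nat_eq (4 * β : ℂ) (n := 2) (by norm_num)
  -- rings
  let A : Type := Localization.Away (X : ℂ[X])
  have hM : Submonoid.powers (X : ℂ[X]) ≤ nonZeroDivisors ℂ[X] :=
    powers_le_nonZeroDivisors_of_noZeroDivisors X_ne_zero
  have hAdom : IsDomain A := IsLocalization.isDomain_localization hM
  have hAded : IsDedekindDomain A := IsLocalization.isDedekindDomain ℂ[X] hM A
  have hAft' : Algebra.FiniteType ℂ[X] A :=
    IsLocalization.finiteType_of_monoid_fg (Submonoid.powers (X : ℂ[X])) A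
  have hAft : Algebra.FiniteType ℂ A := Algebra.FiniteType.trans (S := ℂ[X]) inferInstance hAft'
  let K0 : Type := FractionRing A
  have hinjCA : Function.Injective (algebraMap ℂ[X] A) := IsLocalization.injective _ hM
  let s : A := algebraMap ℂ[X] A X
  let t : A := IsLocalization.Away.invSelf (X : ℂ[X])
  have hst : s * t = 1 := IsLocalization.Away.mul_invSelf (X : ℂ[X])
  have hchar : CharZero K0 := by
    have : Function.Injective (algebraMap ℂ K0) := (algebraMap ℂ K0).injective
    exact charZero_of_injective_algebraMap this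
  obtain ⟨K, iK, iK0K, hfd, v, hv, hK⟩ := exists_sqrt_ext K0 (algebraMap A K0 (1 + s ^ (2 * N)))
  letI iAK : Algebra A K := ((algebraMap K0 K).comp (algebraMap A K0)).toAlgebra
  have tAK : IsScalarTower A K0 K := IsScalarTower.of_algebraMap_eq (fun _ => rfl)
  letI iCK : Algebra ℂ K := ((algebraMap A K).comp (algebraMap ℂ A)).toAlgebra
  have tCAK : IsScalarTower ℂ A K := IsScalarTower.of_algebraMap_eq (fun _ => rfl)
  let x : K := algebraMap A K s
  have hinjAK : Function.Injective (algebraMap A K) := by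
    rw [IsScalarTower.algebraMap_eq A K0 K]
    exact (algebraMap K0 K).injective.comp (IsFractionRing.injective A K0)
  have hvx : v ^ 2 = 1 + x ^ (2 * N) := by
    rw [hv, ← IsScalarTower.algebraMap_apply, map_add, map_one, map_pow]
  have haev : ∀ p : ℂ[X], aeval x p = algebraMap A K (algebraMap ℂ[X] A p) := by
    intro p
    have : (aeval x : ℂ[X] →ₐ[ℂ] K) =
        (IsScalarTower.toAlgHom ℂ A K).comp (IsScalarTower.toAlgHom ℂ ℂ[X] A) := by
      apply Polynomial.algHom_ext
      rw [aeval_X]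
      rfl
    rw [this]
    rfl
  have hx : Transcendental ℂ x := by
    rw [transcendental_iff_injective]
    intro p p' h
    rw [haev, haev] at h
    exact hinjCA (hinjAK h)
  have hxA : ∀ a : A, algebraMap A K a ∈ ℂ⟮x⟯ := by
    intro a
    obtain ⟨⟨g, ⟨_, k, rfl⟩⟩, h⟩ := IsLocalization.surj (Submonoid.powers (X : ℂ[X])) a
    have h' := congrArg (algebraMap A K) h
    rw [map_mul, ← haev, ← haev] at h'
    have hne : aeval x (X ^ k : ℂ[X]) ≠ 0 := by
      intro h0
      have : (X ^ k : ℂ[X]) = 0 := (transcendental_iff_injective.mp hx) (by rw [h0, map_zero])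
      exact pow_ne_zero k X_ne_zero this
    have : algebraMap A K a = aeval x g / aeval x (X ^ k : ℂ[X]) := by
      rw [eq_div_iff hne]
      exact h'
    rw [this]
    exact div_mem (aeval_mem_adjoin x _) (aeval_mem_adjoin x _)
  have hxK0 : ∀ a : K0, algebraMap K0 K a ∈ ℂ⟮x⟯ := by
    intro a
    obtain ⟨b, c, hc⟩ := IsFractionRing.div_surjective (A := A) a
    obtain ⟨-, rfl⟩ := hc
    rw [map_div₀, ← IsScalarTower.algebraMap_apply, ← IsScalarTower.algebraMap_apply]
    exact div_mem (hxA _) (hxA _)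
  have hgen : GenusAtMost K (N - 1) := by
    refine genus_le (x := x) (v := v) (by omega) hx hvx (fun k => ?_)
    obtain ⟨p, p', rfl⟩ := hK k
    exact ⟨⟨_, hxK0 p⟩, ⟨_, hxK0 p'⟩, rfl⟩
  have hcurve : IsSmoothAffineCurve (integralClosure A K) :=
    curve_of_intClosure A K0 K loc_notField
  have hfrac : IsFractionRing (integralClosure A K) K :=
    integralClosure.isFractionRing_of_finite_extension K0 K
  -- elements of `R`
  let R : Type := integralClosure A K
  have hvint : IsIntegral A v := by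
    refine IsIntegral.of_pow (n := 2) (by norm_num) ?_
    rw [hvx]
    have : (1 + x ^ (2 * N) : K) = algebraMap A K (1 + s ^ (2 * N)) := by
      rw [map_add, map_one, map_pow]
    rw [this]
    exact isIntegral_algebraMap
  let vR : R := ⟨v, hvint⟩
  let sR : R := algebraMap A R s
  let tR : R := algebraMap A R t
  have hstR : sR * tR = 1 := by
    rw [← map_mul, hst, map_one]
  have hvR : vR ^ 2 = 1 + sR ^ (2 * N) := Subtype.ext hvx
  let aR : R := algebraMap ℂ R α * vR * tR ^ q
  let bR : R := algebraMap ℂ R β * sR ^ (2 * m)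
  have hbR : ∀ c : ℂ, algebraMap ℂ R c ≠ bR := by
    intro c hc
    have h1 : algebraMap ℂ K c = algebraMap ℂ K β * x ^ (2 * m) := congrArg Subtype.val hc
    have h2 : aeval x (C β * X ^ (2 * m) : ℂ[X]) = aeval x (C c : ℂ[X]) := by
      rw [map_mul, map_pow, aeval_X, aeval_C, aeval_C, h1]
    have h3 := (transcendental_iff_injective.mp hx) h2
    have h4 := congrArg (fun p : ℂ[X] => p.coeff (2 * m)) h3
    simp only [coeff_C_mul, coeff_X_pow, if_true, mul_one, coeff_C,
      if_neg (by omega : 2 * m ≠ 0)] at h4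
    exact hβ0 h4
  have hRft : Algebra.FiniteType ℂ R := hcurve.finiteType
  have hRdom : IsDomain R := hcurve.isDomain
  obtain ⟨φ, ψ, hφψ⟩ := exists_two_points hbR
  have hzval : ∀ φ : R →ₐ[ℂ] ℂ, (fun i : Fin (2 * m + ε) => φ
      (if (i : ℕ) = m - 1 then aR else if (i : ℕ) = 2 * m - 1 then bR else 0)) =
      (fun i : Fin (2 * m + ε) =>
        if (i : ℕ) = m - 1 then φ aR else if (i : ℕ) = 2 * m - 1 then φ bR else 0) := by
    intro φ
    funext i
    split_ifs
    · rfl
    · rfl
    · exact map_zero φ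
  refine ⟨R, K, inferInstance, iK, inferInstance, iCK, inferInstance, inferInstance, hfrac, hcurve,
    ⟨N - 1, ?_, hgen⟩,
    fun i => if (i : ℕ) = m - 1 then aR else if (i : ℕ) = 2 * m - 1 then bR else 0, ?_,
    φ, ψ, ?_⟩
  · -- genus bound
    obtain ⟨k, rfl⟩ := Nat.exists_eq_add_of_le' hm
    interval_cases ε
    · obtain ⟨j, rfl⟩ := Nat.exists_eq_add_of_le' (by omega : 1 ≤ k)
      have e1 : N - 1 = 2 * j + 4 := by omega
      have e2 : 2 * (j + 1 + 2) + 0 - 1 = 2 * j + 5 := by omega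
      have e3 : 2 * (j + 1 + 2) + 0 - 2 = 2 * j + 4 := by omega
      rw [e1, e2, e3]
      nlinarith
    · have e1 : N - 1 = 2 * k + 4 := by omega
      have e2 : 2 * (k + 2) + 1 - 1 = 2 * k + 4 := by omega
      have e3 : 2 * (k + 2) + 1 - 2 = 2 * k + 3 := by omega
      rw [e1, e2, e3]
      nlinarith
  · intro φ
    rw [hzval φ]
    refine ⟨?_, ?_⟩
    · intro i hi
      have : ¬ ((i : ℕ) = m - 1) := by omega
      have h2 : ¬ ((i : ℕ) = 2 * m - 1) := by omega
      simp only [if_neg this, if_neg h2]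
    · rw [braidPoly_eq hm, hdisc]
      have h1 : φ sR * φ tR = 1 := by rw [← map_mul, hstR, map_one]
      have h2 : φ vR ^ 2 = 1 + φ sR ^ (2 * N) := by
        rw [← map_pow, hvR, map_add, map_one, map_pow]
      have h3 : φ aR = α * φ vR * φ tR ^ q := by
        simp only [aR, map_mul, map_pow, AlgHom.commutes]
        rfl
      have h4 : φ bR = β * φ sR ^ (2 * m) := by
        simp only [bR, map_mul, map_pow, AlgHom.commutes]
        rfl
      rw [h3, h4]
      set S := φ sR
      set T := φ tR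
      set V := φ vR
      have h5 : 4 * (β * S ^ (2 * m)) - (α * V * T ^ q) ^ 2 = (-4) * β * T ^ (2 * q) := by
        have e : (α * V * T ^ q) ^ 2 = α ^ 2 * V ^ 2 * T ^ (2 * q) := by
          rw [mul_pow, mul_pow, ← pow_mul, mul_comm q 2]
        rw [e, hα, h2]
        have e2 : S ^ (2 * N) * T ^ (2 * q) = S ^ (2 * m) := by
          rw [hN, mul_add, pow_add, mul_assoc, ← mul_pow, h1, one_pow, mul_one]
        linear_combination (-4 * β) * e2
      rw [h5]
      have e3 : (S ^ (2 * m)) ^ q * (T ^ (2 * q)) ^ m = 1 := by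
        rw [← pow_mul, ← pow_mul, (by ring : 2 * q * m = 2 * m * q), ← mul_pow, h1, one_pow]
      calc κ * (β * S ^ (2 * m)) ^ q * (-4 * β * T ^ (2 * q)) ^ m
          = (κ * (-4) ^ m * β ^ (m + q)) * ((S ^ (2 * m)) ^ q * (T ^ (2 * q)) ^ m) := by
            rw [mul_pow, mul_pow, mul_pow, pow_add]; ring
        _ = 1 := by rw [e3, mul_one]; exact hβ'
  · intro h
    apply hφψ
    rw [hzval φ, hzval ψ] at h
    have h1 := congrFun h ⟨2 * m - 1, by omega⟩
    have h2 : ¬ (2 * m - 1 = m - 1) := by omega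
    simpa only [if_neg h2, if_true] using h1

end H9.BraidCurve
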