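import Pool.Agent.H9.BraidCurve.Disc
import Pool.Agent.H9.BraidCurve.Genus

namespace H9.BraidCurve

open Polynomial IntermediateField

lemma discr_gen {m ε : ℕ} (hm : 1 ≤ m) (hε : ε ≤ 1) : ∃ κ : ℂ, κ ≠ 0 ∧ ∀ a b : ℂ,
    (X ^ ε * tri m a b).discr = κ * b ^ (m - 1 + 2 * ε) * (4 * b - a ^ 2) ^ m := by
  interval_cases ε
  · obtain ⟨κ, h0, h⟩ := discr_even hm
    exact ⟨κ, h0, fun a b => by rw [pow_zero, one_mul, h]; rfl⟩
  · obtain ⟨κ, h0, h⟩ := discr_odd hm
    exact ⟨κ, h0, fun a b => by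
      rw [pow_one, h, (by omega : m - 1 + 2 * 1 = m + 1)]⟩

lemma braidPoly_eq {m ε : ℕ} (hm : 2 ≤ m) (a b : ℂ) :
    braidPoly (n := 2 * m + ε)
      (fun i => if (i : ℕ) = m - 1 then a else if (i : ℕ) = 2 * m - 1 then b else 0)
      = X ^ ε * tri m a b := by
  unfold braidPoly tri
  have h1 := Fin.sum_univ_eq_sum_range (fun i : ℕ =>
    (C (if i = m - 1 then a else if i = 2 * m - 1 then b else 0) * X ^ (2 * m + ε - 1 - i) : ℂ[X]))
    (2 * m + ε)
  rw [h1]
  have h2 : ∀ i ∈ Finset.range (2 * m + ε),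
      (C (if i = m - 1 then a else if i = 2 * m - 1 then b else 0) * X ^ (2 * m + ε - 1 - i) : ℂ[X])
      = (if i = m - 1 then C a * X ^ (m + ε) else 0) + (if i = 2 * m - 1 then C b * X ^ ε else 0) := by
    intro i _
    by_cases hi : i = m - 1
    · have hi' : i ≠ 2 * m - 1 := by omega
      rw [if_pos hi, if_pos hi, if_neg hi', add_zero, (by omega : 2 * m + ε - 1 - i = m + ε)]
    · rw [if_neg hi, if_neg hi, zero_add]
      by_cases hi2 : i = 2 * m - 1
      · rw [if_pos hi2, if_pos hi2, (by omega : 2 * m + ε - 1 - i = ε)]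
      · rw [if_neg hi2, if_neg hi2, C_0, zero_mul]
  rw [Finset.sum_congr rfl h2, Finset.sum_add_distrib, Finset.sum_ite_eq', Finset.sum_ite_eq',
    if_pos (Finset.mem_range.mpr (by omega)), if_pos (Finset.mem_range.mpr (by omega))]
  ring

lemma exists_point {R : Type} [CommRing R] [Algebra ℂ R] [Algebra.FiniteType ℂ R] (M : Ideal R)
    (hM : M.IsMaximal) : ∃ φ : R →ₐ[ℂ] ℂ, ∀ r ∈ M, φ r = 0 := by
  letI := Ideal.Quotient.field M
  have : Module.Finite ℂ (R ⧸ M) := finite_of_finite_type_of_isJacobsonRing ℂ (R ⧸ M)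
  have hb : Function.Bijective (algebraMap ℂ (R ⧸ M)) :=
    IsAlgClosed.algebraMap_bijective_of_isIntegral
  let e : ℂ ≃ₐ[ℂ] (R ⧸ M) := AlgEquiv.ofBijective (Algebra.ofId ℂ _) hb
  refine ⟨(e.symm : (R ⧸ M) →ₐ[ℂ] ℂ).comp (Ideal.Quotient.mkₐ ℂ M), fun r hr => ?_⟩
  have h1 : Ideal.Quotient.mkₐ ℂ M r = 0 := by
    rw [Ideal.Quotient.mkₐ_eq_mk]
    exact Ideal.Quotient.eq_zero_iff_mem.mpr hr
  rw [AlgHom.comp_apply, h1, map_zero]

lemma exists_two_points {R : Type} [CommRing R] [IsDomain R] [Algebra ℂ R]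
    [Algebra.FiniteType ℂ R] {f : R} (hf : ∀ c : ℂ, algebraMap ℂ R c ≠ f) :
    ∃ φ ψ : R →ₐ[ℂ] ℂ, φ f ≠ ψ f := by
  have hJ : IsJacobsonRing R := isJacobsonRing_of_finiteType (A := ℂ)
  by_contra hcon
  push Not at hcon
  obtain ⟨M, hM⟩ := Ideal.exists_maximal R
  obtain ⟨φ, hφ⟩ := exists_point M hM
  apply hf (φ f)
  have h1 : f - algebraMap ℂ R (φ f) ∈ (⊥ : Ideal R).jacobson := by
    rw [Ideal.jacobson, Submodule.mem_sInf]
    rintro M' ⟨-, hM'⟩
    by_contra hnot
    -- `f - c` is invertible mod `M'`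
    obtain ⟨y, i, hi, hy⟩ := hM'.exists_inv hnot
    obtain ⟨ψ, hψ⟩ := exists_point M' hM'
    have h2 := congrArg ψ hy
    rw [map_add, map_mul, hψ i hi, map_sub, AlgHom.commutes, hcon ψ φ, map_one] at h2
    simp at h2
  have h3 : (⊥ : Ideal R).jacobson = ⊥ := by
    have := (isJacobsonRing_iff_prime_eq).mp hJ ⊥ Ideal.isPrime_bot
    exact this
  rw [h3, Ideal.mem_bot, sub_eq_zero] at h1
  exact h1.symm

lemma exists_sqrt_ext (F : Type) [Field F] (f : F) :
    ∃ (K : Type) (_ : Field K) (_ : Algebra F K), FiniteDimensional F K ∧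
      ∃ v : K, v ^ 2 = algebraMap F K f ∧
        ∀ k : K, ∃ p q : F, k = algebraMap F K p + algebraMap F K q * v := by
  obtain ⟨w, hw⟩ := IsAlgClosed.exists_pow_nat_eq (algebraMap F (AlgebraicClosure F) f)
    (n := 2) (by norm_num)
  have hint : IsIntegral F w := Algebra.IsIntegral.isIntegral w
  refine ⟨F⟮w⟯, inferInstance, inferInstance, adjoin.finiteDimensional hint,
    AdjoinSimple.gen F w, Subtype.ext hw, ?_⟩
  rintro ⟨k, hk⟩
  have hk' : k ∈ Algebra.adjoin F {w} := by
    rw [← adjoin_simple_toSubalgebra_of_isAlgebraic hint.isAlgebraic]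
    exact hk
  have : ∃ p q : F, k = algebraMap F (AlgebraicClosure F) p
      + algebraMap F (AlgebraicClosure F) q * w := by
    clear hk
    induction hk' using Algebra.adjoin_induction with
    | mem x hx =>
      rw [Set.mem_singleton_iff] at hx
      exact ⟨0, 1, by rw [hx]; simp⟩
    | algebraMap r => exact ⟨r, 0, by simp⟩
    | add x y _ _ hx hy =>
      obtain ⟨p, q, rfl⟩ := hx
      obtain ⟨p', q', rfl⟩ := hy
      exact ⟨p + p', q + q', by simp only [map_add]; ring⟩
    | mul x y _ _ hx hy =>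
      obtain ⟨p, q, rfl⟩ := hx
      obtain ⟨p', q', rfl⟩ := hy
      refine ⟨p * p' + q * q' * f, p * q' + q * p', ?_⟩
      simp only [map_add, map_mul]
      rw [← hw]
      ring
  obtain ⟨p, q, h⟩ := this
  exact ⟨p, q, Subtype.ext h⟩

lemma curve_of_intClosure (A K0 K : Type) [CommRing A] [IsDedekindDomain A] [Algebra ℂ A]
    [Algebra.FiniteType ℂ A] [Field K0] [Algebra A K0] [IsFractionRing A K0] [Field K]
    [Algebra K0 K] [Algebra A K] [IsScalarTower A K0 K] [Algebra ℂ K] [IsScalarTower ℂ A K]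
    [FiniteDimensional K0 K] [CharZero K0] (hA : ¬ IsField A) :
    IsSmoothAffineCurve (integralClosure A K) := by
  have hd : IsDedekindDomain (integralClosure A K) := integralClosure.isDedekindDomain A K0 K
  refine ⟨inferInstance, ?_, hd, ?_⟩
  · have : Module.Finite A (integralClosure A K) := IsIntegralClosure.finite A K0 K _
    exact Algebra.FiniteType.trans (S := A) inferInstance inferInstance
  · intro h
    apply hA
    have hinj : Function.Injective (algebraMap A (integralClosure A K)) := by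
      have : Function.Injective (algebraMap A K) := by
        rw [IsScalarTower.algebraMap_eq A K0 K]
        exact (algebraMap K0 K).injective.comp (IsFractionRing.injective A K0)
      intro a b hab
      exact this (congrArg Subtype.val hab)
    exact isField_of_isIntegral_of_isField hinj h

lemma loc_notField : ¬ IsField (Localization.Away (X : ℂ[X])) := by
  intro h
  letI := h.toField
  let e : Localization.Away (X : ℂ[X]) →+* ℂ :=
    IsLocalization.Away.lift (X : ℂ[X]) (g := (evalRingHom (1 : ℂ))) (by simp)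
  have h1 : e (algebraMap ℂ[X] _ (X - 1)) = 0 := by
    have := IsLocalization.Away.lift_eq (S := Localization.Away (X : ℂ[X])) (X : ℂ[X])
      (g := (evalRingHom (1 : ℂ))) (by simp) (X - 1)
    rw [show e = _ from rfl, this]
    simp
  have h2 : algebraMap ℂ[X] (Localization.Away (X : ℂ[X])) (X - 1) = 0 :=
    e.injective (by rw [h1, map_zero])
  have h3 : Function.Injective (algebraMap ℂ[X] (Localization.Away (X : ℂ[X]))) :=
    IsLocalization.injective _ (powers_le_nonZeroDivisors_of_noZeroDivisors X_ne_zero)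
  have h4 : (X - 1 : ℂ[X]) = 0 := h3 (by rw [h2, map_zero])
  have h5 := congrArg (eval 0) h4
  simp at h5

end H9.BraidCurve
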